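import Pool.Agent.AT12.Stmts1
import Pool.Agent.Helper13_C2.CHN
import Pool.Agent.Helper27_C2.YQZ

/-!
# Squad AT12, row CYN: blocks with cyclic defect groups
-/

open scoped BigOperators

noncomputable section

namespace Pool.Agent.PP.T12.H21

open Pool.Agent.Helper51_AWC Pool.Agent.Helper79_WRA Pool.Agent.PP Pool.Agent.PP.KF
open Pool.Agent.PP.K9 Pool.Agent.PP.C2

attribute [local instance] Ideal.Quotient.field

/-- the terms with `|Q| ≠ |V|` -/
theorem yq_zero (duv : DuvStmt) {ℓ : ℕ} [Fact ℓ.Prime] {M : Ideal (integralClosure ℤ ℂ)}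
    [M.IsMaximal] (hM : (ℓ : integralClosure ℤ ℂ) ∈ M) {G : Type} [Group G] [Finite G]
    {e : G → FF M} (he : IsBlk e) {V : Subgroup G} (hV : Tp ℓ e V) (hcy : IsCyclic V)
    {Q : Subgroup G} (hQp : IsPGroup ℓ Q) (hQV : Nat.card Q ≠ Nat.card V) : yq ℓ Q e = 0 := by
  have hpr : ℓ.Prime := Fact.out
  have hF : GoodF ℓ (FF M) := H50.fld ℓ hpr M hM
  have hcomm : ∀ a ∈ V, ∀ b ∈ V, a * b = b * a := by
    intro a ha b hb
    have h := (IsCyclic.isMulCommutative (α := V)).is_comm.comm ⟨a, ha⟩ ⟨b, hb⟩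
    exact congrArg Subtype.val h
  set p := QuotientGroup.mk' (Q.subgroupOf (Subgroup.normalizer (Q : Set G))) with hp
  have hps : Function.Surjective p := QuotientGroup.mk'_surjective _
  have hpk : p.ker = Q.subgroupOf (Subgroup.normalizer (Q : Set G)) := QuotientGroup.ker_mk' _
  have hid : IsIdem (fun t : Subgroup.normalizer (Q : Set G) => br Q e t) :=
    (H20.brm ℓ (FF M) hF G Q _ hQp (Subgroup.centralizer_le_normalizer _) le_rfl).2.2 e he.1
  have hid2 := H75.push_isIdem hps hid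
  refine H9.addStmt ℓ (FF M) hF _ ⊤ inferInstance _ hid2 fun f hf hef => ?_
  obtain ⟨R, hR, g, hg⟩ := duv ℓ M hM G e he V hV hcomm Q hQp _ p hps hpk f hf hef
  have E1 : R.comap p ≃* upm p R :=
    (R.comap p).equivMapOfInjective _ (Subgroup.subtype_injective _)
  have E2 : V ≃* R.comap p :=
    (C2.H27.eqC g V).trans ((MulEquiv.subgroupCongr hg.symm).trans E1.symm)
  have hcardV : Nat.card (R.comap p) = Nat.card V := (Nat.card_congr E2.toEquiv).symm
  have hcardQ : Nat.card p.ker = Nat.card Q := by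
    rw [hpk]
    exact Nat.card_congr (Subgroup.subgroupOfEquivOfLe Subgroup.le_normalizer).toEquiv
  have hcardR : Nat.card Q * Nat.card R = Nat.card V := by
    rw [← hcardQ, ← H75.card_comap hps R, hcardV]
  have hRne : R ≠ ⊥ := by
    rintro rfl
    rw [Subgroup.card_bot, mul_one] at hcardR
    exact hQV hcardR
  have hc1 : IsCyclic (R.comap p) := isCyclic_of_surjective E2.toMonoidHom E2.surjective
  have hc : IsCyclic R := isCyclic_of_surjective (p.subgroupComap R)
    (p.subgroupComap_surjective_of_surjective R hps)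
  exact C2.H27.yy_cyc hM hf hR hc hRne

/-- CYN -/
theorem cyn (hrec : RecStmt) (duv : DuvStmt) (yqv : YqvStmt) : T12.CynStmt := by
  classical
  intro ℓ hℓ M _ hM G _ _ e he V hV hVn hcy
  have hF : GoodF ℓ (FF M) := H50.fld ℓ hℓ.out M hM
  have hfin : Fintype (Subgroup G) := Fintype.ofFinite _
  have h0 := C2.H27.yy_cyc hM he hV hcy hVn
  rw [hrec ℓ (FF M) hF G e he.1, K9.H35.lnum_top, finsum_eq_sum_of_fintype] at h0
  simp only [finsum_eq_if] at h0
  rw [← Finset.sum_filter] at h0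
  have hsub : Finset.univ.filter (fun W : Subgroup G => K9.H35.CJ V W) ⊆
      Finset.univ.filter (fun Q : Subgroup G => IsPGroup ℓ Q ∧ Q ≠ ⊥) := by
    intro W hW
    obtain ⟨-, g, rfl⟩ := Finset.mem_filter.1 hW
    exact Finset.mem_filter.2 ⟨Finset.mem_univ _, hV.pg.map _, BN.H9.conjS_ne_bot hVn g⟩
  rw [← Finset.sum_subset hsub] at h0
  · have s2 := C2.H13.sum_conj V (fun Q => (Nat.card Q : ℤ) * yq ℓ Q e)
      (lb (fun t : Subgroup.normalizer (V : Set G) => br V e t) : ℤ) (by
        intro g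
        rw [card_conjS, C2.H13.yq_conj ℓ he.1.1, yqv ℓ M hM G e he V hV V hV.pg rfl,
          (K9.H75.lbr ℓ (FF M) hF G e he.1 V (Subgroup.normalizer (V : Set G)) hV.pg
            Subgroup.le_normalizer le_rfl).1]
        rfl)
    rw [s2] at h0
    have h1 : (Nat.card G : ℤ) * (lb e : ℤ) - (Nat.card G : ℤ) *
      (lb (fun t : Subgroup.normalizer (V : Set G) => br V e t) : ℤ) = 0 := h0
    have hG : (Nat.card G : ℤ) ≠ 0 := by
      have : 0 < Nat.card G := Nat.card_pos
      exact_mod_cast this.ne'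
    have h6 : (Nat.card G : ℤ) * (lb e : ℤ) = (Nat.card G : ℤ) *
        (lb (fun t : Subgroup.normalizer (V : Set G) => br V e t) : ℤ) := sub_eq_zero.1 h1
    exact_mod_cast mul_left_cancel₀ hG h6
  · intro W hW hW2
    obtain ⟨-, hWp, hWn⟩ := Finset.mem_filter.1 hW
    by_cases hc : Nat.card W = Nat.card V
    · rw [yqv ℓ M hM G e he V hV W hWp hc]
      have h3 : ¬ Gd e W := by
        intro hg
        obtain ⟨g, hg2⟩ := (K9.H69.fmg ℓ M hM G e he V hV).1 W hWp hg
        apply hW2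
        refine Finset.mem_filter.2 ⟨Finset.mem_univ _, g, ?_⟩
        refine Subgroup.eq_of_le_of_card_ge hg2 ?_
        rw [card_conjS, hc]
      rw [(K9.H75.lbr ℓ (FF M) hF G e he.1 W (Subgroup.normalizer (W : Set G)) hWp
        Subgroup.le_normalizer le_rfl).2 h3, Nat.cast_zero, mul_zero]
    · rw [yq_zero duv hM he hV hcy hWp hc, mul_zero]

end Pool.Agent.PP.T12.H21
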