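import Pool.Agent.AT12.Stmts1
import Pool.Agent.Helper35_K9.CHV
import Pool.Agent.Helper2_K9.PUG
import Pool.Agent.Helper75_K9.LBR
import Pool.Agent.Helper75_PP.Cen

/-!
# Squad AT12, row LBY: lower bound for the number of modular characters of the image of the block
-/

open scoped BigOperators

noncomputable section

namespace Pool.Agent.PP.T12.H21

open Pool.Agent.Helper51_AWC Pool.Agent.Helper79_WRA Pool.Agent.PP Pool.Agent.PP.KF
open Pool.Agent.PP.K9 Pool.Agent.PP.C2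

attribute [local instance] Ideal.Quotient.field

/-- LBY -/
theorem lby (hInu : InuStmt) (hNrm : NrmStmt) (hPsn : PsnStmt) (hCyn : T12.CynStmt) :
    T12.LbyStmt := by
  intro ℓ hℓ M _ hM G H _ _ _ _ e V γ hL y hy a π hπ β hβ hcyc hne ht₀
  have hpr : ℓ.Prime := hℓ.out
  have hF : GoodF ℓ (FF M) := PP.H50.fld ℓ hℓ.out M hM
  have hI : Inr ℓ e V γ (T3.Tg V γ) :=
    ⟨hL.blk, hL.tp, hL.ab, ⟨hL.gam.supp, hL.gam.blk⟩, hL.und, rfl⟩
  have hA : Ab V γ y β := ⟨⟨hβ.blk.supp, hβ.blk.blk⟩, hβ.gam⟩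
  have hI1 := hInu ℓ (FF M) hF G e V γ _ hI y hy β hA
  have hVC : V ≤ Cu y := by
    intro v hv
    rw [Subgroup.mem_centralizer_singleton_iff]
    exact hI.comm v hv y hy
  have hCC : Subgroup.centralizer (V : Set G) ≤ Cu y := by
    intro x hx
    rw [Subgroup.mem_centralizer_singleton_iff]
    exact (Subgroup.mem_centralizer_iff.1 hx y hy).symm
  obtain ⟨T, hT⟩ : ∃ T : Subgroup G, T = T3.Tg V γ := ⟨_, rfl⟩
  rw [← hT] at hI hI1 ht₀ ⊢
  obtain ⟨V1, hV1⟩ : ∃ V1 : Subgroup (Cu y), V1 = V.subgroupOf (Cu y) := ⟨_, rfl⟩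
  obtain ⟨T1, hT1⟩ : ∃ T1 : Subgroup (Cu y), T1 = T.subgroupOf (Cu y) := ⟨_, rfl⟩
  obtain ⟨b, hb⟩ : ∃ b : Cu y → FF M, b = fun t : Cu y => β t := ⟨_, rfl⟩
  obtain ⟨g, hg⟩ : ∃ g : Cu y → FF M, g = fun t : Cu y => γ t := ⟨_, rfl⟩
  rw [← hV1, ← hT1, ← hb, ← hg] at hI1
  rw [← hb]
  rw [← hV1] at hcyc hne
  have e1 : Subgroup.centralizer (V1 : Set (Cu y)) =
      (Subgroup.centralizer (V : Set G)).subgroupOf (Cu y) := by
    ext x
    rw [Subgroup.mem_subgroupOf, Subgroup.mem_centralizer_iff, Subgroup.mem_centralizer_iff]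
    constructor
    · intro h v hv
      have := h ⟨v, hVC hv⟩ (by rw [hV1]; exact hv)
      exact congrArg Subtype.val this
    · intro h v hv
      rw [hV1] at hv
      exact Subtype.ext (h v hv)
  have hcyc1 : ∃ t₀ ∈ T1, ∀ t ∈ T1, ∃ k : ℕ,
      t₀ ^ k * t ∈ Subgroup.centralizer (V1 : Set (Cu y)) := by
    obtain ⟨t₀, ⟨ht1, ht2⟩, h⟩ := ht₀
    refine ⟨⟨t₀, ht2⟩, ?_, ?_⟩
    · rw [hT1, Subgroup.mem_subgroupOf]
      exact ht1
    · intro t ht
      rw [hT1, Subgroup.mem_subgroupOf] at ht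
      obtain ⟨k, hk⟩ := h t ⟨ht, t.2⟩
      refine ⟨k, ?_⟩
      rw [e1, Subgroup.mem_subgroupOf]
      exact hk
  have h1 := hNrm ℓ M hM (Cu y) b V1 g T1 hI1 hcyc1
  have h2 : (Subgroup.centralizer (V1 : Set (Cu y))).relIndex T1 =
      (Subgroup.centralizer (V : Set G)).relIndex (T ⊓ Cu y) := by
    have e2 : T1 = (T ⊓ Cu y).subgroupOf (Cu y) := by
      rw [hT1, Subgroup.inf_subgroupOf_right]
    rw [e1, e2, Subgroup.relIndex_subgroupOf inf_le_right]
  -- the kernel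
  obtain ⟨z, hz⟩ : ∃ z : Cu y, z = ⟨y, hVC hy⟩ := ⟨_, rfl⟩
  have hzc : z ∈ Subgroup.center (Cu y) := by
    rw [Subgroup.mem_center_iff]
    intro g
    apply Subtype.ext
    rw [hz]
    exact Subgroup.mem_centralizer_singleton_iff.1 g.2
  have hzV : z ∈ V1 := by
    rw [hV1, Subgroup.mem_subgroupOf, hz]
    exact hy
  have hps : Function.Surjective π := hπ.sur
  have hpk : π.ker = Subgroup.zpowers z := by
    ext c
    rw [MonoidHom.mem_ker, hπ.ker, Subgroup.mem_zpowers_iff, Subgroup.mem_zpowers_iff]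
    constructor
    · rintro ⟨k, hk⟩
      refine ⟨k, Subtype.ext ?_⟩
      rw [hz, ← hk]
      rfl
    · rintro ⟨k, hk⟩
      refine ⟨k, ?_⟩
      rw [← hk, hz]
      rfl
  have hQV : π.ker ≤ V1 := by rw [hpk]; exact Subgroup.zpowers_le.2 hzV
  have hVc : (V1.map π).comap π = V1 := Subgroup.comap_map_eq_self hQV
  have hkp : IsPGroup ℓ π.ker := hI1.tp.pg.to_le hQV
  have hkc : π.ker ≤ Subgroup.center (Cu y) := by rw [hpk]; exact Subgroup.zpowers_le.2 hzc
  have hbi : IsIdem b := hI1.blk.1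
  have hb' : IsBlk (PP.H75.push π b) := hPsn ℓ (FF M) hF _ _ π hps hkp hkc b hI1.blk
  have hV'g : Gd (PP.H75.push π b) (V1.map π) :=
    (H02.pug ℓ (FF M) hF _ _ π hps hkp b hbi V1 hQV hI1.tp.pg).1 hI1.tp.gd
  have hV't : Tp ℓ (PP.H75.push π b) (V1.map π) := by
    refine ⟨hI1.tp.pg.map π, hV'g, ?_⟩
    intro R hR hRg
    have k1 : π.ker ≤ R.comap π := by
      intro x hx
      rw [MonoidHom.mem_ker] at hx
      rw [Subgroup.mem_comap, hx]
      exact R.one_mem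
    have k2 : IsPGroup ℓ (R.comap π) := (PP.H75.isPGroup_comap_iff hps hkp R).2 hR
    have k3 := (H02.pug ℓ (FF M) hF _ _ π hps hkp b hbi (R.comap π) k1 k2).2 (by
      rw [Subgroup.map_comap_eq_self_of_surjective hps]
      exact hRg)
    have k4 := hI1.tp.mx _ k2 k3
    rw [← hVc, PP.H75.card_comap hps, PP.H75.card_comap hps] at k4
    exact Nat.le_of_mul_le_mul_left k4 Nat.card_pos
  have h3 := hCyn ℓ M hM _ (PP.H75.push π b) hb' (V1.map π) hV't hne hcyc
  -- the numbers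
  have hV1p : IsPGroup ℓ V1 := hI1.tp.pg
  have n1 : lb (fun t : Subgroup.normalizer (V1 : Set (Cu y)) => br V1 b t) =
      lnum (Subgroup.normalizer (V1 : Set (Cu y))) b :=
    ((K9.H75.lbr ℓ (FF M) hF (Cu y) b hbi V1 (Subgroup.normalizer (V1 : Set (Cu y))) hV1p
      Subgroup.le_normalizer le_rfl).1).symm
  have n2 : lb (fun t : Subgroup.normalizer ((V1.map π : Subgroup H) : Set H) =>
        br (V1.map π) (PP.H75.push π b) t) =
      lnum (Subgroup.normalizer ((V1.map π : Subgroup H) : Set H)) (PP.H75.push π b) :=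
    ((K9.H75.lbr ℓ (FF M) hF _ (PP.H75.push π b) hb'.1 (V1.map π)
      (Subgroup.normalizer ((V1.map π : Subgroup H) : Set H)) (hV1p.map π)
      Subgroup.le_normalizer le_rfl).1).symm
  have n3 : (Subgroup.normalizer ((V1.map π : Subgroup H) : Set H)).comap π =
      Subgroup.normalizer (V1 : Set (Cu y)) := by
    ext x
    rw [Subgroup.mem_comap, ← PP.H75.normalizer_comap hps, hVc]
  have n4 := PP.H75.lnum_comap PP.H20.nls hF hps hkp
    (Subgroup.normalizer ((V1.map π : Subgroup H) : Set H)) b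
  rw [n3] at n4
  change _ ≤ lb (PP.H75.push π b)
  rw [h3, n2, ← n4, ← n1, ← h2]
  exact h1

end Pool.Agent.PP.T12.H21
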